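import Pool.Agent.H365.TF.Stm2
import Pool.Agent.H806.TF.NT1

/-!
# LG: congruence quotients are `ℓ`-groups (project TF of helper365, by helper594)
-/

set_option autoImplicit false

namespace Pool.Agent.H365.TF

noncomputable section

namespace LGaux

variable (ℓ : ℕ) [Fact ℓ.Prime] {H : Type} [Group H] (N M : Subgroup H) [N.Normal] [M.Normal]

/-- the coprime argument of NT1 for a matrix over the quotient -/
theorem core (hcop : S_COP) [M.FiniteIndex] (hMN : M ≤ N) (hidx : ∃ k : ℕ, M.relIndex N = ℓ ^ k)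
    {ι : Type} [Fintype ι] [DecidableEq ι] (A : Matrix ι ι (MonoidAlgebra (ZMod ℓ) (H ⧸ M)))
    (r : ℕ) (hr : r.Coprime ℓ) (hA1 : A ^ r = 1)
    (hAN : A.map (NT1.pm ℓ N M hMN) = 1) : A = 1 := by
  have : Finite (H ⧸ M) := inferInstance
  have : Finite (MonoidAlgebra (ZMod ℓ) (H ⧸ M)) :=
    Finite.of_injective (fun y => (y.coeff : H ⧸ M → ZMod ℓ)) fun y z hyz =>
      MonoidAlgebra.coeff_injective (DFunLike.coe_injective hyz)
  have : Finite (NT1.PP N M) := by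
    have h1 : Function.Injective (NT1.em N M) := by
      rw [injective_iff_map_eq_one]
      intro a ha
      obtain ⟨x, rfl⟩ := QuotientGroup.mk_surjective a
      have h2 : (QuotientGroup.mk (x : H) : H ⧸ M) = 1 := ha
      rw [QuotientGroup.eq_one_iff] at h2
      exact (QuotientGroup.eq_one_iff x).2 h2
    exact Finite.of_injective _ h1
  have hP : IsPGroup ℓ (NT1.PP N M) := by
    obtain ⟨k, hk⟩ := hidx
    exact IsPGroup.of_card (n := k) hk
  have hA2 : ∀ i j, NT1.pm ℓ N M hMN (A i j - (1 : Matrix ι ι _) i j) = 0 := by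
    intro i j
    rw [map_sub]
    have h1 : NT1.pm ℓ N M hMN (A i j) = (1 : Matrix ι ι _) i j := by
      rw [← hAN]
      rfl
    rw [h1, Matrix.one_apply, Matrix.one_apply]
    split_ifs
    · rw [map_one, sub_self]
    · rw [map_zero, sub_self]
  have h1 := hcop ℓ (ι → MonoidAlgebra (ZMod ℓ) (H ⧸ M)) (NT1.PP N M) hP (NT1.ac ℓ N M ι)
    (NT1.lm ℓ M A) r hr (by
      rw [NT1.lm_pow, hA1]
      refine LinearMap.ext fun x => ?_
      exact Matrix.one_mulVec x) (by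
      intro p
      refine LinearMap.ext fun x => ?_
      funext i
      show ∑ j, A i j * (x j * _) = (∑ j, A i j * x j) * _
      rw [Finset.sum_mul]
      exact Finset.sum_congr rfl fun j _ => (mul_assoc _ _ _).symm) (by
      intro x
      refine NT1.mem_of_ker ℓ N M hMN ι _ fun i => ?_
      have h2 : (NT1.lm ℓ M A x - x) i = ∑ j, (A i j - (1 : Matrix ι ι _) i j) * x j := by
        have h3 : x i = ∑ j, (1 : Matrix ι ι (MonoidAlgebra (ZMod ℓ) (H ⧸ M))) i j * x j := by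
          have h4 := congrFun (Matrix.one_mulVec x) i
          exact h4.symm
        rw [Pi.sub_apply, h3]
        show (∑ j, A i j * x j) - _ = _
        rw [← Finset.sum_sub_distrib]
        exact Finset.sum_congr rfl fun j _ => (sub_mul _ _ _).symm
      rw [h2, map_sum]
      refine Finset.sum_eq_zero fun j _ => ?_
      rw [map_mul, hA2, zero_mul])
  ext1 i j
  have h2 : (NT1.lm ℓ M A) (Pi.single j 1) = Pi.single j 1 := by rw [h1]; rfl
  have h3 : A.mulVec (Pi.single j 1) = Pi.single j 1 := h2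
  rw [Matrix.mulVec_single_one] at h3
  have h4 := congrFun h3 i
  rw [Matrix.one_apply]
  rw [Pi.single_apply] at h4
  exact h4

/-- reduction of the coefficients -/
def cm (j : ℕ) (hj : j ≠ 0) :
    MonoidAlgebra (ZMod (ℓ ^ j)) (H ⧸ M) →+* MonoidAlgebra (ZMod ℓ) (H ⧸ M) :=
  MonoidAlgebra.mapRingHom (H ⧸ M) (ZMod.castHom (dvd_pow_self ℓ hj) (ZMod ℓ))

theorem cm_red (j : ℕ) (hj : j ≠ 0) : (cm ℓ M j hj).comp (red (ℓ ^ j) M) = red ℓ M := by
  refine MonoidAlgebra.ringHom_ext (fun r => ?_) (fun m => ?_)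
  · simp [cm, red]
  · simp only [cm, red, RingHom.comp_apply, MonoidAlgebra.mapRingHom_single, map_one,
      MonoidAlgebra.mapDomainRingHom_apply, MonoidAlgebra.mapDomain_single]

theorem ker_cm (j : ℕ) (hj : j ≠ 0) (f : MonoidAlgebra (ZMod (ℓ ^ j)) (H ⧸ M))
    (hf : cm ℓ M j hj f = 0) : ∃ y : MonoidAlgebra (ZMod (ℓ ^ j)) (H ⧸ M), f = ℓ • y := by
  have h1 : ∀ q, ∃ z : ZMod (ℓ ^ j), f.coeff q = ℓ • z := by
    intro q
    have h2 : ZMod.castHom (dvd_pow_self ℓ hj) (ZMod ℓ) (f.coeff q) = 0 := by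
      have h3 := congrArg (fun x : MonoidAlgebra (ZMod ℓ) (H ⧸ M) => x.coeff q) hf
      simpa [cm] using h3
    have : NeZero (ℓ ^ j) := ⟨pow_ne_zero _ (Fact.out : ℓ.Prime).ne_zero⟩
    rw [ZMod.castHom_apply, ← ZMod.natCast_val, ZMod.natCast_eq_zero_iff] at h2
    obtain ⟨t, ht⟩ := h2
    refine ⟨(t : ZMod (ℓ ^ j)), ?_⟩
    rw [← ZMod.natCast_zmod_val (f.coeff q), ht, Nat.cast_mul, nsmul_eq_mul]
  choose z hz using h1
  refine ⟨f.coeff.sum fun q _ => MonoidAlgebra.single q (z q), ?_⟩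
  have h3 : f = f.coeff.sum MonoidAlgebra.single := (MonoidAlgebra.sum_coeff_single f).symm
  conv_lhs => rw [h3]
  unfold Finsupp.sum
  rw [Finset.smul_sum]
  refine Finset.sum_congr rfl fun q _ => ?_
  rw [hz q]
  exact (MonoidAlgebra.singleAddHom q).map_nsmul _ _

omit [Fact ℓ.Prime] in
theorem pow_eq_one {S : Type} [Ring S] (j : ℕ) (h0 : ((ℓ ^ j : ℕ) : S) = 0) (x y : S)
    (h : x = 1 + ℓ • y) : x ^ (ℓ ^ j) = 1 := by
  have h1 : ((ℓ : ℕ) : Polynomial ℤ) ∣ (1 + (ℓ : Polynomial ℤ) * Polynomial.X) - 1 :=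
    ⟨Polynomial.X, by ring⟩
  have h2 := dvd_sub_pow_of_dvd_sub h1 j
  obtain ⟨q, hq⟩ := h2
  have h3 := congrArg (Polynomial.aeval y) hq
  rw [one_pow, map_sub, map_pow, map_add, map_one, map_mul, map_natCast, Polynomial.aeval_X,
    map_mul, map_pow, map_natCast, ← nsmul_eq_mul, ← h] at h3
  have h4 : ((ℓ : S)) ^ (j + 1) = 0 := by
    rw [pow_succ, ← Nat.cast_pow, h0, zero_mul]
  rw [h4, zero_mul] at h3
  exact sub_eq_zero.1 h3

end LGaux

theorem t_LG (hcop : S_COP) : S_LG := by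
  intro ℓ _ H _ N M _ _ _ hMN hidx j ι _ _ g hgN
  rcases Nat.eq_zero_or_pos j with rfl | hj
  · refine ⟨0, ?_⟩
    have : Subsingleton (MonoidAlgebra (ZMod (ℓ ^ 0)) (H ⧸ M)) := by
      have h1 : Subsingleton (ZMod (ℓ ^ 0)) := by
        rw [pow_zero]
        infer_instance
      refine ⟨fun a b => MonoidAlgebra.coeff_injective ?_⟩
      ext q
      exact Subsingleton.elim _ _
    ext1 a b
    exact Subsingleton.elim _ _
  have hj0 : j ≠ 0 := hj.ne'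
  have hl : ℓ.Prime := Fact.out
  have : NeZero (ℓ ^ j) := ⟨pow_ne_zero _ hl.ne_zero⟩
  have : Finite (H ⧸ M) := inferInstance
  have : Finite (MonoidAlgebra (ZMod (ℓ ^ j)) (H ⧸ M)) :=
    Finite.of_injective (fun y => (y.coeff : H ⧸ M → ZMod (ℓ ^ j))) fun y z hyz =>
      MonoidAlgebra.coeff_injective (DFunLike.coe_injective hyz)
  have : Finite (Matrix ι ι (MonoidAlgebra (ZMod (ℓ ^ j)) (H ⧸ M))) :=
    inferInstanceAs (Finite (ι → ι → MonoidAlgebra (ZMod (ℓ ^ j)) (H ⧸ M)))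
  -- the image of `g`
  let F : Matrix ι ι (MonoidAlgebra ℤ H) →+* Matrix ι ι (MonoidAlgebra (ZMod (ℓ ^ j)) (H ⧸ M)) :=
    (red (ℓ ^ j) M).mapMatrix
  let u : (Matrix ι ι (MonoidAlgebra (ZMod (ℓ ^ j)) (H ⧸ M)))ˣ := Units.map (F : _ →* _) g
  have hfu : Finite (Matrix ι ι (MonoidAlgebra (ZMod (ℓ ^ j)) (H ⧸ M)))ˣ :=
    Finite.of_injective (fun x => (x : Matrix ι ι (MonoidAlgebra (ZMod (ℓ ^ j)) (H ⧸ M))))
      Units.val_injective
  have hord : 0 < orderOf u := orderOf_pos u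
  obtain ⟨m, r, hr, hmr⟩ := Nat.exists_eq_pow_mul_and_not_dvd hord.ne' ℓ hl.ne_one
  have hrc : r.Coprime ℓ := ((Nat.Prime.coprime_iff_not_dvd hl).2 hr).symm
  refine ⟨m, ?_⟩
  have hu1 : (u ^ (ℓ ^ m)) ^ r = 1 := by
    rw [← pow_mul, ← hmr, pow_orderOf_eq_one]
  obtain ⟨h1, hh1⟩ : ∃ h1, h1 = ((g ^ (ℓ ^ m) : (Matrix ι ι (MonoidAlgebra ℤ H))ˣ) :
      Matrix ι ι (MonoidAlgebra ℤ H)).map (red (ℓ ^ j) M) := ⟨_, rfl⟩
  rw [← hh1]
  have hh1' : h1 = F ((g ^ (ℓ ^ m) : (Matrix ι ι (MonoidAlgebra ℤ H))ˣ) :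
      Matrix ι ι (MonoidAlgebra ℤ H)) := hh1
  have hhu : h1 = ((u ^ (ℓ ^ m) : (Matrix ι ι (MonoidAlgebra (ZMod (ℓ ^ j)) (H ⧸ M)))ˣ) :
      Matrix ι ι (MonoidAlgebra (ZMod (ℓ ^ j)) (H ⧸ M))) := by
    rw [hh1', Units.val_pow_eq_pow_val, Units.val_pow_eq_pow_val, map_pow]
    rfl
  have hr1 : h1 ^ r = 1 := by
    rw [hhu, ← Units.val_pow_eq_pow_val, hu1, Units.val_one]
  -- the image modulo `ℓ`
  have hA : (LGaux.cm ℓ M j hj0).mapMatrix h1 = 1 := by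
    refine LGaux.core ℓ N M hcop hMN hidx _ r hrc (by rw [← map_pow, hr1, map_one]) ?_
    have h2 : ((LGaux.cm ℓ M j hj0).mapMatrix h1).map (NT1.pm ℓ N M hMN) =
        (red ℓ N).mapMatrix ((g ^ (ℓ ^ m) : (Matrix ι ι (MonoidAlgebra ℤ H))ˣ) :
          Matrix ι ι (MonoidAlgebra ℤ H)) := by
      rw [hh1]
      ext1 a b
      show NT1.pm ℓ N M hMN (((LGaux.cm ℓ M j hj0).comp (red (ℓ ^ j) M)) _) = red ℓ N _
      rw [LGaux.cm_red, ← RingHom.comp_apply, NT1.pm_red]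
    rw [h2, Units.val_pow_eq_pow_val, map_pow]
    have h3 : (red ℓ N).mapMatrix (g : Matrix ι ι (MonoidAlgebra ℤ H)) = 1 := hgN
    rw [h3, one_pow]
  have hex : ∀ a b, ∃ y : MonoidAlgebra (ZMod (ℓ ^ j)) (H ⧸ M),
      (h1 - 1 : Matrix ι ι (MonoidAlgebra (ZMod (ℓ ^ j)) (H ⧸ M))) a b = ℓ • y := by
    intro a b
    refine LGaux.ker_cm ℓ M j hj0 _ ?_
    have h2 : (LGaux.cm ℓ M j hj0).mapMatrix (h1 - 1) = 0 := by
      rw [map_sub, hA, map_one, sub_self]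
    exact congrFun (congrFun h2 a) b
  choose y hy using hex
  have hpow : h1 ^ (ℓ ^ j) = 1 := by
    refine LGaux.pow_eq_one ℓ j ?_ h1 (Matrix.of y) ?_
    · have h2 : ((ℓ ^ j : ℕ) : Matrix ι ι (MonoidAlgebra (ZMod (ℓ ^ j)) (H ⧸ M))) =
          algebraMap (ZMod (ℓ ^ j)) _ ((ℓ ^ j : ℕ) : ZMod (ℓ ^ j)) := (map_natCast _ _).symm
      rw [h2, ZMod.natCast_self, map_zero]
    · have h2 : h1 - 1 = ℓ • Matrix.of y := by
        ext1 a b
        rw [hy a b]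
        rfl
      rw [← h2]
      abel
  have h5 : Nat.gcd r (ℓ ^ j) = 1 := Nat.Coprime.pow_right j hrc
  have h6 : orderOf h1 ∣ Nat.gcd r (ℓ ^ j) :=
    Nat.dvd_gcd (orderOf_dvd_of_pow_eq_one hr1) (orderOf_dvd_of_pow_eq_one hpow)
  rw [h5, Nat.dvd_one] at h6
  exact orderOf_eq_one_iff.1 h6

end

end Pool.Agent.H365.TF
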